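import Mathlib
import Pool.Agent.Q92.LevySeq2

/-!
# A planar series with two Levy vectors, `SR = A = ℝ²`, and a rearrangement with `A ≠ ℝ²`
-/

namespace Pool.Agent.Results.MP_89b5f7_an.TwoLevy

open Filter Topology Q92.LevySeq

/-- the Euclidean plane -/
abbrev Plane := EuclideanSpace ℝ (Fin 2)

/-- conditional convergence -/
def CondConv (x : ℕ → Plane) : Prop :=
  (∃ s, Tendsto (fun N => ∑ n ∈ Finset.range N, x n) atTop (𝓝 s)) ∧ ¬ Summable fun n => ‖x n‖

/-- the sum range -/
def SR (x : ℕ → Plane) : Set Plane :=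
  {s | ∃ σ : Equiv.Perm ℕ, Tendsto (fun N => ∑ n ∈ Finset.range N, x (σ n)) atTop (𝓝 s)}

/-- the achievement set -/
def Ach (x : ℕ → Plane) : Set Plane :=
  {s | ∃ ε : ℕ → ℕ, (∀ n, ε n = 0 ∨ ε n = 1) ∧
    Tendsto (fun N => ∑ n ∈ Finset.range N, (ε n : ℝ) • x n) atTop (𝓝 s)}

/-- the cone `S_ε(u)` -/
def Cone (ε : ℝ) (u : Plane) : Set Plane := {v | (1 - ε) * ‖u‖ * ‖v‖ ≤ inner ℝ u v}

/-- the set of Levy vectors -/
def Levy (x : ℕ → Plane) : Set Plane :=
  {u | ‖u‖ = 1 ∧ ∀ ε : ℝ, 0 < ε →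
    ¬ Summable (fun n : {n : ℕ // x n ∈ Cone ε u} => ‖x n‖)}

/-- the series -/
noncomputable def xs (n : ℕ) : Plane := !₂[sx n, sy n]

lemma tendsto_plane {f : ℕ → Plane} {s : Plane} (h0 : Tendsto (fun a => f a 0) atTop (𝓝 (s 0)))
    (h1 : Tendsto (fun a => f a 1) atTop (𝓝 (s 1))) : Tendsto f atTop (𝓝 s) := by
  have h2 : Tendsto (fun a => EuclideanSpace.equiv (Fin 2) ℝ (f a)) atTop
      (𝓝 (EuclideanSpace.equiv (Fin 2) ℝ s)) := by
    rw [tendsto_pi_nhds]
    intro i
    fin_cases i
    · exact h0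
    · exact h1
  have h3 := ((EuclideanSpace.equiv (Fin 2) ℝ).symm.continuous.tendsto _).comp h2
  rw [ContinuousLinearEquiv.symm_apply_apply] at h3
  refine h3.congr fun a => ?_
  exact (EuclideanSpace.equiv (Fin 2) ℝ).symm_apply_apply (f a)

lemma plane_tendsto {f : ℕ → Plane} {s : Plane} (h : Tendsto f atTop (𝓝 s)) :
    Tendsto (fun a => f a 0) atTop (𝓝 (s 0)) ∧ Tendsto (fun a => f a 1) atTop (𝓝 (s 1)) :=
  ⟨((EuclideanSpace.proj (𝕜 := ℝ) (0 : Fin 2)).continuous.tendsto s).comp h,
   ((EuclideanSpace.proj (𝕜 := ℝ) (1 : Fin 2)).continuous.tendsto s).comp h⟩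

lemma sum_x (σ : ℕ → ℕ) (w : ℕ → ℝ) (N : ℕ) :
    (∑ n ∈ Finset.range N, w n • xs (σ n)) 0 = ∑ n ∈ Finset.range N, w n * sx (σ n) := by
  have := map_sum (EuclideanSpace.proj (𝕜 := ℝ) (0 : Fin 2)) (fun n => w n • xs (σ n))
    (Finset.range N)
  exact this.trans (Finset.sum_congr rfl fun n _ => by simp [xs])

lemma sum_y (σ : ℕ → ℕ) (w : ℕ → ℝ) (N : ℕ) :
    (∑ n ∈ Finset.range N, w n • xs (σ n)) 1 = ∑ n ∈ Finset.range N, w n * sy (σ n) := by
  have := map_sum (EuclideanSpace.proj (𝕜 := ℝ) (1 : Fin 2)) (fun n => w n • xs (σ n))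
    (Finset.range N)
  exact this.trans (Finset.sum_congr rfl fun n _ => by simp [xs])

lemma sum_x' (σ : ℕ → ℕ) (N : ℕ) :
    (∑ n ∈ Finset.range N, xs (σ n)) 0 = ∑ n ∈ Finset.range N, sx (σ n) := by
  have := sum_x σ (fun _ => 1) N
  simpa using this

lemma sum_y' (σ : ℕ → ℕ) (N : ℕ) :
    (∑ n ∈ Finset.range N, xs (σ n)) 1 = ∑ n ∈ Finset.range N, sy (σ n) := by
  have := sum_y σ (fun _ => 1) N
  simpa using this

lemma abs_le_norm_0 (v : Plane) : |v 0| ≤ ‖v‖ := EuclideanSpace.norm_eq v ▸ by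
  rw [Fin.sum_univ_two]
  apply Real.le_sqrt_of_sq_le
  simp only [Real.norm_eq_abs, sq_abs]
  nlinarith [sq_nonneg (v 1)]

lemma abs_le_norm_1 (v : Plane) : |v 1| ≤ ‖v‖ := EuclideanSpace.norm_eq v ▸ by
  rw [Fin.sum_univ_two]
  apply Real.le_sqrt_of_sq_le
  simp only [Real.norm_eq_abs, sq_abs]
  nlinarith [sq_nonneg (v 0)]

lemma inner_plane (u v : Plane) : inner ℝ u v = u 0 * v 0 + u 1 * v 1 := by
  rw [PiLp.inner_apply, Fin.sum_univ_two]
  simp [mul_comm]

lemma norm_xs_ge (n : ℕ) : d (kap (n / 4)) ≤ ‖xs n‖ := by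
  have := abs_le_norm_1 (xs n)
  rw [show (xs n) 1 = sy n from rfl, abs_sy] at this
  exact this

lemma not_summable_norm : ¬ Summable fun n => ‖xs n‖ := by
  intro h
  have h1 : Summable fun j : ℕ => ‖xs (4 * j)‖ :=
    h.comp_injective (fun a b (hab : 4 * a = 4 * b) => by omega :
      Function.Injective fun j : ℕ => 4 * j)
  apply not_summable_d 1 0
  apply Summable.of_nonneg_of_le (fun j => (d_pos _).le) _ h1
  intro j
  have := norm_xs_ge (4 * j)
  rwa [show 4 * j / 4 = 1 * j + 0 by omega] at this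

/-- vertical terms have infinite total length -/
lemma levy_vertical (s : ℝ) (hs : s = 1 ∨ s = -1) : !₂[0, s] ∈ Levy xs := by
  have hnorm : ‖(!₂[0, s] : Plane)‖ = 1 := by
    rw [EuclideanSpace.norm_eq, Fin.sum_univ_two]
    rcases hs with rfl | rfl <;> simp
  refine ⟨hnorm, fun ε hε hsum => ?_⟩
  let r : ℕ := if s = 1 then 3 else 1
  have hr : ∀ j, xs (4 * j + r) = !₂[0, s * d (kap j)] := by
    intro j
    rcases hs with rfl | rfl
    · have e1 : (4 * j + 3) % 4 = 3 := by omega
      have e2 : (4 * j + 3) / 4 = j := by omega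
      simp [xs, r, sx, sy, e1, e2]
    · have e1 : (4 * j + 1) % 4 = 1 := by omega
      have e2 : (4 * j + 1) / 4 = j := by omega
      have e3 : (if (-1 : ℝ) = 1 then 3 else 1) = 1 := by norm_num
      simp only [xs, r, sx, sy, e3, e1, e2]
      norm_num
  have hs2 : s * s = 1 := by rcases hs with rfl | rfl <;> norm_num
  have hn : ∀ j, ‖xs (4 * j + r)‖ = d (kap j) := by
    intro j
    rw [hr, EuclideanSpace.norm_eq, Fin.sum_univ_two]
    have : ‖(!₂[0, s * d (kap j)] : Plane) 0‖ ^ 2 + ‖(!₂[0, s * d (kap j)] : Plane) 1‖ ^ 2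
        = d (kap j) ^ 2 := by
      simp only [Real.norm_eq_abs, sq_abs]
      change (0 : ℝ) ^ 2 + (s * d (kap j)) ^ 2 = _
      rw [mul_pow, sq s, hs2]; ring
    rw [this, Real.sqrt_sq (d_pos _).le]
  have hmem : ∀ j, xs (4 * j + r) ∈ Cone ε !₂[0, s] := by
    intro j
    change (1 - ε) * ‖(!₂[0, s] : Plane)‖ * ‖xs (4 * j + r)‖ ≤ inner ℝ !₂[0, s] (xs (4 * j + r))
    rw [hn, hnorm, inner_plane, hr]
    change (1 - ε) * 1 * d (kap j) ≤ 0 * 0 + s * (s * d (kap j))
    have := d_pos (kap j)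
    rw [← mul_assoc, hs2]
    nlinarith
  let ι : ℕ → {n : ℕ // xs n ∈ Cone ε !₂[0, s]} := fun j => ⟨4 * j + r, hmem j⟩
  have hι : Function.Injective ι := by
    intro a b hab
    have : 4 * a + r = 4 * b + r := congrArg Subtype.val hab
    omega
  have h1 := hsum.comp_injective hι
  apply not_summable_d 1 0
  refine h1.congr fun j => ?_
  change ‖xs (4 * j + r)‖ = _
  rw [hn, one_mul, add_zero]

/-- no other Levy vectors -/
lemma levy_only {u : Plane} (hu : u ∈ Levy xs) : u = !₂[0, 1] ∨ u = !₂[0, -1] := by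
  obtain ⟨hu1, hu2⟩ := hu
  have hsq : u 0 ^ 2 + u 1 ^ 2 = 1 := by
    have := EuclideanSpace.norm_sq_eq u
    rw [hu1, Fin.sum_univ_two] at this
    simp only [Real.norm_eq_abs, sq_abs] at this
    linarith
  by_cases h : |u 1| < 1
  · exfalso
    set ε : ℝ := (1 - |u 1|) / 2 with hε
    have hε0 : 0 < ε := by rw [hε]; linarith
    apply hu2 ε hε0
    -- only finitely many terms in the cone
    have hsmall : ∀ᶠ n : ℕ in atTop, d (kap (n / 4)) < ε := d4_tendsto.eventually_lt_const hε0
    obtain ⟨N, hN⟩ := hsmall.exists_forall_of_atTop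
    have hfin : ∀ n, xs n ∈ Cone ε u → n < N := by
      intro n hn
      by_contra hnN
      push Not at hnN
      have h1 : (1 - ε) * ‖u‖ * ‖xs n‖ ≤ inner ℝ u (xs n) := hn
      rw [hu1, inner_plane, mul_one] at h1
      change _ ≤ u 0 * sx n + u 1 * sy n at h1
      have h2 := hN n hnN
      set k := kap (n / 4) with hk
      have hd := d_pos k
      have h3 := norm_xs_ge n
      have hu0 : |u 0| ≤ 1 := by
        have := abs_le_norm_0 u; rwa [hu1] at this
      -- the horizontal coordinate is tiny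
      have h4 : |sx n| ≤ c k := by
        have h1 := c_pos k
        unfold sx
        split_ifs
        · rw [abs_of_pos h1]
        · rw [abs_neg, abs_of_pos h1]
        · rw [abs_zero]; exact h1.le
      have h5 : |sy n| = d k := abs_sy n
      have h6 : u 0 * sx n ≤ c k := by
        calc u 0 * sx n ≤ |u 0 * sx n| := le_abs_self _
          _ = |u 0| * |sx n| := abs_mul _ _
          _ ≤ 1 * c k := by gcongr
          _ = c k := one_mul _
      have h7 : u 1 * sy n ≤ |u 1| * d k := by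
        calc u 1 * sy n ≤ |u 1 * sy n| := le_abs_self _
          _ = |u 1| * |sy n| := abs_mul _ _
          _ = _ := by rw [h5]
      have h9 : 1 ≤ k := by
        by_contra h0
        have : k = 0 := by omega
        rw [this] at h2
        have : d 0 = 1 := by simp [d]
        rw [this] at h2
        have := abs_nonneg (u 1)
        rw [hε] at h2
        linarith
      have h8 : c k ≤ d k * d k ∨ k = 1 := by
        by_cases hk1 : k = 1
        · exact Or.inr hk1
        · left
          unfold c d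
          rw [← pow_add]
          apply pow_le_pow_of_le_one (by norm_num) (by norm_num)
          have : 2 ≤ k := by omega
          nlinarith
      have h10 : (1 - ε) * d k ≤ (1 - ε) * ‖xs n‖ := by
        apply mul_le_mul_of_nonneg_left h3
        have := abs_nonneg (u 1)
        rw [hε]; linarith
      have h11 : (1 - ε - |u 1|) * d k ≤ c k := by nlinarith
      have h12 : 1 - ε - |u 1| = ε := by rw [hε]; ring
      rw [h12] at h11
      rcases h8 with h8 | h8
      · have : ε * d k < ε * d k := by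
          calc ε * d k ≤ c k := h11
            _ ≤ d k * d k := h8
            _ < ε * d k := by gcongr
        exact lt_irrefl _ this
      · rw [h8] at h2
        have : d 1 = 1 / 2 := by simp [d]
        rw [this] at h2
        have := abs_nonneg (u 1)
        rw [hε] at h2
        linarith
    have : Finite {n : ℕ // xs n ∈ Cone ε u} :=
      Set.Finite.subset (Set.finite_Iio N) (fun n hn => hfin n hn)
    exact Summable.of_finite
  · have h1 : |u 1| = 1 := by
      have := abs_le_norm_1 u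
      rw [hu1] at this
      linarith [not_lt.mp h]
    have h2 : u 1 ^ 2 = 1 := by rw [← sq_abs, h1]; norm_num
    have h3 : u 0 = 0 := by
      have : u 0 ^ 2 = 0 := by linarith
      exact pow_eq_zero_iff (by norm_num) |>.mp this
    rcases (abs_eq (by norm_num)).mp h1 with h4 | h4
    · left
      ext i; fin_cases i
      · exact h3
      · exact h4
    · right
      ext i; fin_cases i
      · exact h3
      · exact h4

/-- **Theorem.** There is a conditionally convergent series in the plane with `SR = ℝ²`,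
achievement set `ℝ²` and exactly two Levy vectors, and a permutation `σ` of `ℕ` such that the
achievement set of the rearranged series is not `ℝ²`. -/
theorem result : ∃ x : ℕ → Plane, CondConv x ∧ SR x = Set.univ ∧ Ach x = Set.univ ∧
    (Levy x).ncard = 2 ∧ ∃ σ : Equiv.Perm ℕ, Ach (fun n => x (σ n)) ≠ Set.univ := by
  refine ⟨xs, ⟨⟨0, ?_⟩, not_summable_norm⟩, ?_, ?_, ?_, ?_⟩
  · apply tendsto_plane
    · have : ∀ N, (∑ n ∈ Finset.range N, xs n) 0 = ∑ n ∈ Finset.range N, sx n := sum_x' id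
      simp only [this]
      exact full_x
    · have : ∀ N, (∑ n ∈ Finset.range N, xs n) 1 = ∑ n ∈ Finset.range N, sy n := sum_y' id
      simp only [this]
      exact full_y
  · rw [Set.eq_univ_iff_forall]
    intro s
    obtain ⟨σ, h1, h2⟩ := sr (s 0) (s 1)
    refine ⟨σ, tendsto_plane ?_ ?_⟩
    · simp only [sum_x' σ]; exact h1
    · simp only [sum_y' σ]; exact h2
  · rw [Set.eq_univ_iff_forall]
    intro s
    obtain ⟨ε, h0, -, h1, h2⟩ := exists_sel (s 0) (s 1) 0
    refine ⟨ε, h0, tendsto_plane ?_ ?_⟩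
    · have : ∀ N, (∑ n ∈ Finset.range N, (ε n : ℝ) • xs n) 0
          = ∑ n ∈ Finset.range N, (ε n : ℝ) * sx n := sum_x id _
      simp only [this]; exact h1
    · have : ∀ N, (∑ n ∈ Finset.range N, (ε n : ℝ) • xs n) 1
          = ∑ n ∈ Finset.range N, (ε n : ℝ) * sy n := sum_y id _
      simp only [this]; exact h2
  · have h1 : Levy xs = {!₂[0, 1], !₂[0, -1]} := by
      ext u
      constructor
      · intro hu
        rcases levy_only hu with h | h
        · left; exact h
        · right; exact h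
      · rintro (rfl | rfl)
        · exact levy_vertical 1 (Or.inl rfl)
        · exact levy_vertical (-1) (Or.inr rfl)
    rw [h1, Set.ncard_pair]
    intro h
    have : (!₂[0, 1] : Plane) 1 = (!₂[0, -1] : Plane) 1 := by rw [h]
    change (1 : ℝ) = -1 at this
    norm_num at this
  · obtain ⟨σ, hσ⟩ := bad
    refine ⟨σ, fun h => ?_⟩
    have h1 : (!₂[1 / 3, 0] : Plane) ∈ Ach (fun n => xs (σ n)) := by rw [h]; trivial
    obtain ⟨ε, hε, hlim⟩ := h1
    obtain ⟨h2, h3⟩ := plane_tendsto hlim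
    simp only [sum_x σ] at h2
    simp only [sum_y σ] at h3
    exact hσ ε hε _ ⟨h2, h3⟩

end Pool.Agent.Results.MP_89b5f7_an.TwoLevy
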